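import Pool.Agent.H525.QF.Stm2

/-!
# QF/PAIRS (helper225 for helper525): monic polynomials and their monic divisors
-/

set_option autoImplicit false

namespace Pool.Agent.H225.QF

open Polynomial Pool.Agent.H525.QF

theorem t_pairs : S_pairs := by
  intro K _ _ j φ
  have hr : (Fintype.card K : ℝ) ^ j * ∑ α ∈ Finset.range (j + 1), φ α =
      ∑ α ∈ Finset.range (j + 1), ∑ _x ∈ mon K α ×ˢ mon K (j - α), φ α := by
    rw [Finset.mul_sum]
    refine Finset.sum_congr rfl fun α hα => ?_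
    rw [Finset.sum_const, Finset.card_product, card_mon, card_mon, nsmul_eq_mul]
    have h1 : α + (j - α) = j := by
      have := Finset.mem_range.1 hα
      omega
    rw [← pow_add, h1]
    push_cast
    rfl
  rw [hr, Finset.sum_sigma', Finset.sum_sigma']
  refine Finset.sum_nbij' (fun x => ⟨x.2.natDegree, (x.2, x.1 /ₘ x.2)⟩)
    (fun x => ⟨x.2.1 * x.2.2, x.2.1⟩) ?_ ?_ ?_ ?_ ?_
  · rintro ⟨g, a⟩ hx
    rw [Finset.mem_sigma] at hx
    obtain ⟨hg, ha⟩ := hx
    simp only at hg ha ⊢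
    rw [mem_mon] at hg
    rw [mem_mdiv hg.1.ne_zero] at ha
    have hdeg := natDegree_le_of_dvd ha.2 hg.1.ne_zero
    rw [Finset.mem_sigma, Finset.mem_range, Finset.mem_product, mem_mon, mem_mon]
    have h1 : a * (g /ₘ a) = g := by
      have h2 := modByMonic_add_div g a
      rw [(modByMonic_eq_zero_iff_dvd ha.1).2 ha.2, zero_add] at h2
      exact h2
    refine ⟨by simp only; omega, ⟨ha.1, rfl⟩, ?_, ?_⟩
    · simp only
      refine ha.1.of_mul_monic_left ?_
      rw [h1]
      exact hg.1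
    · simp only
      rw [natDegree_divByMonic g ha.1, hg.2]
  · rintro ⟨α, a, c⟩ hx
    rw [Finset.mem_sigma, Finset.mem_range, Finset.mem_product, mem_mon, mem_mon] at hx
    simp only at hx
    obtain ⟨hα, ⟨ha, ha2⟩, hc, hc2⟩ := hx
    rw [Finset.mem_sigma]
    simp only
    have hac : (a * c).Monic := ha.mul hc
    rw [mem_mon, mem_mdiv hac.ne_zero]
    refine ⟨⟨hac, ?_⟩, ha, Dvd.intro _ rfl⟩
    rw [ha.natDegree_mul hc, ha2, hc2]
    omega
  · rintro ⟨g, a⟩ hx
    rw [Finset.mem_sigma] at hx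
    obtain ⟨hg, ha⟩ := hx
    simp only at hg ha ⊢
    rw [mem_mon] at hg
    rw [mem_mdiv hg.1.ne_zero] at ha
    have h1 : a * (g /ₘ a) = g := by
      have h2 := modByMonic_add_div g a
      rw [(modByMonic_eq_zero_iff_dvd ha.1).2 ha.2, zero_add] at h2
      exact h2
    rw [h1]
  · rintro ⟨α, a, c⟩ hx
    rw [Finset.mem_sigma, Finset.mem_range, Finset.mem_product, mem_mon, mem_mon] at hx
    simp only at hx
    obtain ⟨hα, ⟨ha, ha2⟩, hc, hc2⟩ := hx
    simp only
    rw [mul_divByMonic_cancel_left c ha, ha2]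
  · rintro ⟨g, a⟩ _
    rfl

end Pool.Agent.H225.QF
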